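import Pool.Agent.MP_3ee8cb_gt.D3C0.Spec

/-! Rows STR and FIN: strict differentiability everywhere gives class `C¹`. -/

namespace Pool.Agent.MP_3ee8cb_gt.D3C0

open Set Filter Topology Asymptotics Real D3
open CR (Met UT)
open scoped RealInnerProductSpace ContDiff

noncomputable section

theorem str : SSTR := by
  intro f U hU h
  have hd : ∀ z ∈ U, HasFDerivAt f (fderiv ℝ f z) z := fun z hz => by
    obtain ⟨L, hL⟩ := h z hz
    exact hL.hasFDerivAt.differentiableAt.hasFDerivAt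
  have hc : ContinuousOn (fderiv ℝ f) U := by
    intro z hz
    refine ContinuousAt.continuousWithinAt ?_
    obtain ⟨L, hL⟩ := h z hz
    have hLz : fderiv ℝ f z = L := hL.hasFDerivAt.fderiv
    rw [ContinuousAt, hLz, Metric.tendsto_nhds]
    intro ε hε
    have h1 := (hasStrictFDerivAt_iff_isLittleO.mp hL).def (half_pos hε)
    rw [nhds_prod_eq] at h1
    obtain ⟨pa, ha, pb, hb, hab⟩ := eventually_prod_iff.mp h1
    have h2 : ∀ᶠ x in 𝓝 z, ∀ᶠ y in 𝓝 x, pa y := eventually_eventually_nhds.mpr ha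
    filter_upwards [h2, hb, hU.mem_nhds hz] with x hx1 hx2 hx3
    have h3 : HasFDerivAt (fun y => f y - L y) (fderiv ℝ f x - L) x :=
      (hd x hx3).sub L.hasFDerivAt
    have h4 : ‖fderiv ℝ f x - L‖ ≤ ε / 2 := by
      refine h3.le_of_lip' (half_pos hε).le ?_
      filter_upwards [hx1] with y hy
      have h5 := hab hy hx2
      simp only at h5
      have h6 : f y - L y - (f x - L x) = f y - f x - L (y - x) := by
        rw [map_sub]
        abel
      rw [h6]
      exact h5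
    rw [dist_eq_norm]
    linarith
  have h1 : (1 : WithTop ℕ∞) = 0 + 1 := by simp
  rw [h1, contDiffOn_succ_iff_fderiv_of_isOpen hU]
  refine ⟨fun z hz => (hd z hz).differentiableAt.differentiableWithinAt, by simp, ?_⟩
  exact contDiffOn_zero.mpr hc

namespace RFin

theorem nz_c1 {z : W} (hz : z.2 ≠ 0) : ContDiffAt ℝ 1 nz z := by
  unfold nz
  have h1 : ContDiffAt ℝ 1 (fun w : W => ‖w.2‖) z :=
    (contDiffAt_norm ℝ hz).comp z contDiffAt_snd
  have h2 : ContDiffAt ℝ 1 (fun w : W => ‖w.2‖⁻¹) z := h1.inv (norm_ne_zero_iff.mpr hz)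
  exact contDiffAt_fst.prodMk (h2.smul contDiffAt_snd)

theorem ne_nhds {z : W} (hz : z.2 ≠ 0) : ∀ᶠ w : W in 𝓝 z, w.2 ≠ 0 :=
  continuous_snd.continuousAt.eventually_ne hz

variable {g : Met 3} {m : MF}

theorem unit_mem (ho : ∀ y a b, g y (m.R y a) (m.R y b) = ⟪a, b⟫) {z : W} (hz : z.2 ≠ 0) :
    g z.1 (m.R z.1 (nz z).2) (m.R z.1 (nz z).2) = 1 := by
  rw [ho, real_inner_self_eq_norm_sq]
  simp only [nz, norm_smul, norm_inv, norm_norm]
  rw [inv_mul_cancel₀ (norm_ne_zero_iff.mpr hz)]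
  norm_num

open Classical in
/-- The unit vector in the direction of `z`. -/
def un (ho : ∀ y a b, g y (m.R y a) (m.R y b) = ⟪a, b⟫) (p : UT g) (z : W) : UT g :=
  if hz : z.2 ≠ 0 then ⟨(z.1, m.R z.1 (nz z).2), unit_mem ho hz⟩ else p

theorem un_val (ho : ∀ y a b, g y (m.R y a) (m.R y b) = ⟪a, b⟫) (p : UT g) {z : W}
    (hz : z.2 ≠ 0) : (un ho p z).1 = (z.1, m.R z.1 (nz z).2) := by
  unfold un
  rw [dif_pos hz]

theorem fz_un (hm : m.OK) (ho : ∀ y a b, g y (m.R y a) (m.R y b) = ⟪a, b⟫) (p : UT g) {z : W}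
    (hz : z.2 ≠ 0) : fz m (un ho p z) = nz z := by
  unfold fz
  rw [un_val ho p hz]
  simp only [hm.SR]
  rfl

theorem un_cont (hm : m.OK) (ho : ∀ y a b, g y (m.R y a) (m.R y b) = ⟪a, b⟫) (p : UT g) {z : W}
    (hz : z.2 ≠ 0) : ContinuousAt (un ho p) z := by
  rw [ContinuousAt, tendsto_subtype_rng]
  have h1 : ContinuousAt (fun w : W => (w.1, m.R w.1 (nz w).2)) z := by
    refine continuousAt_fst.prodMk ?_
    have h2 : ContinuousAt (fun w : W => m.R w.1) z :=
      (hm.cR.continuous.comp continuous_fst).continuousAt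
    exact h2.clm_apply (continuousAt_snd.comp (nz_c1 hz).continuousAt)
  rw [un_val ho p hz]
  refine Tendsto.congr' ?_ h1
  filter_upwards [ne_nhds hz] with w hw
  exact (un_val ho p hw).symm

theorem fz_norm (hm : m.OK) (ho : ∀ y a b, g y (m.R y a) (m.R y b) = ⟪a, b⟫) (q : UT g) :
    ‖(fz m q).2‖ = 1 := by
  have h1 := ho q.1.1 (m.S q.1.1 q.1.2) (m.S q.1.1 q.1.2)
  rw [hm.RS, q.2, real_inner_self_eq_norm_sq] at h1
  have h2 : 0 ≤ ‖m.S q.1.1 q.1.2‖ := norm_nonneg _
  change ‖m.S q.1.1 q.1.2‖ = 1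
  nlinarith

theorem fz_ne (hm : m.OK) (ho : ∀ y a b, g y (m.R y a) (m.R y b) = ⟪a, b⟫) (q : UT g) :
    (fz m q).2 ≠ 0 := by
  rw [← norm_ne_zero_iff, fz_norm hm ho q]
  exact one_ne_zero

theorem un_fz (hm : m.OK) (ho : ∀ y a b, g y (m.R y a) (m.R y b) = ⟪a, b⟫) (p q : UT g) :
    un ho p (fz m q) = q := by
  apply Subtype.ext
  rw [un_val ho p (fz_ne hm ho q)]
  simp only [nz, fz_norm hm ho q, inv_one, one_smul]
  simp only [fz, hm.RS]

theorem strict (hm : m.OK) (ho : ∀ y a b, g y (m.R y a) (m.R y b) = ⟪a, b⟫) (p : UT g)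
    (θ : UT g → W) {z : W} (hz : z.2 ≠ 0) {L : W →L[ℝ] W} (hL : SD (fz m) θ L (un ho p z)) :
    HasStrictFDerivAt (𝕜 := ℝ) (fun w => θ (un ho p w)) (L.comp (fderiv ℝ nz z)) z := by
  have hN : HasStrictFDerivAt (𝕜 := ℝ) nz (fderiv ℝ nz z) z :=
    (nz_c1 hz).hasStrictFDerivAt one_ne_zero
  have ht : Tendsto (fun q : W × W => (un ho p q.1, un ho p q.2)) (𝓝 (z, z))
      (𝓝 (un ho p z, un ho p z)) := by
    have h1 : ContinuousAt (fun q : W × W => un ho p q.1) (z, z) :=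
      ContinuousAt.comp (f := Prod.fst) (un_cont hm ho p hz) continuousAt_fst
    have h2 : ContinuousAt (fun q : W × W => un ho p q.2) (z, z) :=
      ContinuousAt.comp (f := Prod.snd) (un_cont hm ho p hz) continuousAt_snd
    exact h1.prodMk h2
  have he : ∀ᶠ q : W × W in 𝓝 (z, z), q.1.2 ≠ 0 ∧ q.2.2 ≠ 0 := by
    have h1 : ContinuousAt (fun q : W × W => q.1.2) (z, z) := by fun_prop
    have h2 : ContinuousAt (fun q : W × W => q.2.2) (z, z) := by fun_prop
    exact (h1.eventually_ne hz).and (h2.eventually_ne hz)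
  have h1 : (fun q : W × W => θ (un ho p q.1) - θ (un ho p q.2) - L (nz q.1 - nz q.2))
      =o[𝓝 (z, z)] fun q => nz q.1 - nz q.2 := by
    refine (IsLittleO.comp_tendsto hL ht).congr' ?_ ?_
    · filter_upwards [he] with q hq
      simp only [Function.comp, fz_un hm ho p hq.1, fz_un hm ho p hq.2]
    · filter_upwards [he] with q hq
      simp only [Function.comp, fz_un hm ho p hq.1, fz_un hm ho p hq.2]
  have h2 := h1.trans_isBigO hN.isBigO_sub
  have h3 := (L.isBigO_comp _ _).trans_isLittleO (hasStrictFDerivAt_iff_isLittleO.mp hN)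
  rw [hasStrictFDerivAt_iff_isLittleO]
  refine (h2.add h3).congr_left fun q => ?_
  simp only [map_sub, ContinuousLinearMap.comp_apply]
  abel

end RFin

open RFin in
theorem fin : SFIN := by
  intro hS g h C C' Φ Ψ m m' F hm hm' hl hl' hsd p
  have ho := hl.orth
  have hU : IsOpen {z : W | z.2 ≠ 0} := isOpen_ne_fun continuous_snd continuous_const
  have hG : ContDiffOn ℝ 1 (fun w => fz m' (F (un ho p w))) {z : W | z.2 ≠ 0} := by
    refine hS _ _ hU fun z hz => ?_
    obtain ⟨L, hL⟩ := hsd (un ho p z)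
    exact ⟨_, strict hm ho p (fun q => fz m' (F q)) hz hL⟩
  have hA : ContDiff ℝ 1 fun q : W => (q.1, m.S q.1 q.2) := by
    refine contDiff_fst.prodMk ?_
    exact ((hm.cS.of_le (by norm_num)).comp contDiff_fst).clm_apply contDiff_snd
  have hB : ContDiff ℝ 1 fun q : W => (q.1, m'.R q.1 q.2) := by
    refine contDiff_fst.prodMk ?_
    exact ((hm'.cR.of_le (by norm_num)).comp contDiff_fst).clm_apply contDiff_snd
  refine ⟨fun q => (fun q : W => (q.1, m'.R q.1 q.2))
    ((fun w => fz m' (F (un ho p w))) ((fun q : W => (q.1, m.S q.1 q.2)) q)), ?_, ?_⟩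
  · have h1 : ContDiffAt ℝ 1 (fun w => fz m' (F (un ho p w))) (p.1.1, m.S p.1.1 p.1.2) :=
      hG.contDiffAt (hU.mem_nhds (fz_ne hm ho p))
    have h2 := ContDiffAt.comp (f := fun q : W => (q.1, m.S q.1 q.2)) p.1 h1 hA.contDiffAt
    exact hB.contDiffAt.comp p.1 h2
  · refine Eventually.of_forall fun q => ?_
    have h1 : un ho p (q.1.1, m.S q.1.1 q.1.2) = q := un_fz hm ho p q
    simp only [h1]
    simp only [fz, hm'.RS]

end

end Pool.Agent.MP_3ee8cb_gt.D3C0
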