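import Pool.Agent.MP_3ee8cb_gt.D3C0.Spec
import Pool.Agent.MP_3ee8cb_gt.D3C0.H38Tay

/-! Facts on Jacobi fields and norms. -/

namespace Pool.Agent.MP_3ee8cb_gt.D3C0

open Set Filter Topology Real D3
open scoped RealInnerProductSpace

namespace RJf

variable {m : MF}

theorem z0 (ok : m.OK) : m.Z 0 = id := funext ok.zero

theorem J0 (ok : m.OK) (z ξ : W) : m.J z ξ 0 = m.hor z ξ := by
  simp only [MF.J, z0 ok, id, fderiv_id, ContinuousLinearMap.id_apply]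

theorem J'0 (ok : m.OK) (z ξ : W) : m.J' z ξ 0 = m.ver z ξ := by
  simp only [MF.J', z0 ok, id, fderiv_id, ContinuousLinearMap.id_apply]

theorem wsk (ok : m.OK) (z : W) (t : ℝ) (x y : V) : ⟪m.w z t x, y⟫ = -⟪x, m.w z t y⟫ :=
  ok.skew _ _ _ _

theorem vder (ok : m.OK) (z : W) (t : ℝ) :
    HasDerivAt (fun s => (m.Z s z).2) (-m.w z t (m.Z t z).2) t :=
  (ContinuousLinearMap.snd ℝ V V).hasFDerivAt.comp_hasDerivAt t (ok.ode z t)

theorem inn (ok : m.OK) {z : W} {t : ℝ} {f g : ℝ → V} {f' g' : V}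
    (hf : HasDerivAt f (f' - m.w z t (f t)) t) (hg : HasDerivAt g (g' - m.w z t (g t)) t) :
    HasDerivAt (fun s => ⟪f s, g s⟫) (⟪f t, g'⟫ + ⟪f', g t⟫) t := by
  refine (hf.inner ℝ hg).congr_deriv ?_
  rw [inner_sub_right, inner_sub_left, wsk ok]
  ring

theorem vder' (ok : m.OK) (z : W) (t : ℝ) :
    HasDerivAt (fun s => (m.Z s z).2) (0 - m.w z t (m.Z t z).2) t := by
  rw [zero_sub]
  exact vder ok z t

theorem ksym (jac : m.Jac) (y x u v : V) : ⟪m.K y x v v, u⟫ = ⟪m.K y u v v, x⟫ := by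
  rw [jac.pK y x v v u, jac.aK y v u x, inner_neg_left, jac.sK y u v x v, neg_neg,
    real_inner_comm]

theorem kself (jac : m.Jac) (y x v : V) : ⟪m.K y x v v, v⟫ = 0 := by
  have h := jac.sK y x v v v
  rw [real_inner_comm (m.K y x v v) v] at h
  linarith

theorem kbd (jac : m.Jac) {b : ℝ} (hb : 0 < b) (up : m.Up 0) (dn : m.Dn (b ^ 2)) (y x u v : V)
    (hv : ‖v‖ = 1) : -(2 * ⟪m.K y x v v, u⟫) ≤ b * (b ^ 2 * ‖x‖ ^ 2 + ‖u‖ ^ 2) := by
  obtain ⟨L, hL⟩ := jac.lK y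
  have h1 := up y (b • x - u) v
  have h2 := dn y x v
  have h3 := dn y u v
  have h4 := ksym jac y x u v
  rw [hv] at h2 h3
  rw [hL] at h1
  simp only [map_sub, map_smul, sub_apply, smul_apply,
    inner_sub_left, inner_sub_right, real_inner_smul_left, real_inner_smul_right, ← hL,
    zero_mul] at h1
  have h5 : -⟪m.K y x v v, x⟫ ≤ b ^ 2 * ‖x‖ ^ 2 := by
    nlinarith [mul_nonneg (sq_nonneg b) (sq_nonneg ⟪x, v⟫)]
  have h6 : -⟪m.K y u v v, u⟫ ≤ b ^ 2 * ‖u‖ ^ 2 := by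
    nlinarith [mul_nonneg (sq_nonneg b) (sq_nonneg ⟪u, v⟫)]
  have h7 := mul_le_mul_of_nonneg_left h5 (sq_nonneg b)
  refine le_of_mul_le_mul_left ?_ hb
  rw [← h4] at h1
  nlinarith

theorem grow (ok : m.OK) (jac : m.Jac) {b : ℝ} (hb : 0 < b) (up : m.Up 0) (dn : m.Dn (b ^ 2))
    (z ξ : W) (t : ℝ) (hz : ‖z.2‖ = 1) (ht : 0 ≤ t) :
    nn m b (m.Z t z) (fderiv ℝ (m.Z t) z ξ) ≤ exp (b * t) * nn m b z ξ := by
  have hd : ∀ s, ∃ d, d ≤ 0 ∧ HasDerivAt (fun s => exp (-(2 * b) * s) *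
      (b ^ 2 * ⟪m.J z ξ s, m.J z ξ s⟫ + ⟪m.J' z ξ s, m.J' z ξ s⟫)) d s := fun s => by
    have h1 := inn ok (jac.d1 z ξ s) (jac.d1 z ξ s)
    have h2 := inn ok (jac.d2 z ξ s) (jac.d2 z ξ s)
    have h3 := ((hasDerivAt_id s).const_mul (-(2 * b))).exp
    refine ⟨_, ?_, h3.mul ((h1.const_mul (b ^ 2)).add h2)⟩
    have h4 := kbd jac hb up dn (m.Z s z).1 (m.J z ξ s) (m.J' z ξ s) (m.Z s z).2
      (by rw [jac.norm, hz])
    have h5 : 2 * b ^ 2 * ⟪m.J z ξ s, m.J' z ξ s⟫ ≤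
        b * (b ^ 2 * ‖m.J z ξ s‖ ^ 2 + ‖m.J' z ξ s‖ ^ 2) := by
      have h6 := mul_le_mul_of_nonneg_left (real_inner_le_norm (m.J z ξ s) (m.J' z ξ s))
        (by positivity : 0 ≤ 2 * b ^ 2)
      nlinarith [mul_nonneg hb.le (sq_nonneg (b * ‖m.J z ξ s‖ - ‖m.J' z ξ s‖))]
    simp only [id, inner_neg_left, inner_neg_right, real_inner_self_eq_norm_sq,
      real_inner_comm (m.J z ξ s) (m.J' z ξ s),
      real_inner_comm (m.K (m.Z s z).1 (m.J z ξ s) (m.Z s z).2 (m.Z s z).2) (m.J' z ξ s)]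
    have h7 := exp_pos (-(2 * b) * s)
    nlinarith
  choose d d0 hd using hd
  have h := antitone_of_hasDerivAt_nonpos hd d0 ht
  simp only [mul_zero, exp_zero, one_mul, J0 ok, J'0 ok, real_inner_self_eq_norm_sq] at h
  have e : exp (b * t) = √(exp (2 * b * t)) := by
    rw [show 2 * b * t = b * t + b * t by ring, exp_add, sqrt_mul_self (exp_pos _).le]
  unfold nn
  rw [e, ← sqrt_mul (exp_pos _).le]
  refine sqrt_le_sqrt ?_
  have h2 := mul_le_mul_of_nonneg_left h (exp_pos (2 * b * t)).le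
  rw [← mul_assoc, ← exp_add, show 2 * b * t + -(2 * b) * t = 0 by ring, exp_zero, one_mul] at h2
  exact h2

theorem al (ok : m.OK) (jac : m.Jac) (z ξ : W) (t : ℝ) (h : ⟪m.ver z ξ, z.2⟫ = 0) :
    ⟪m.J z ξ t, (m.Z t z).2⟫ = ⟪m.hor z ξ, z.2⟫ := by
  have h1 : ∀ s, HasDerivAt (fun s => ⟪m.J' z ξ s, (m.Z s z).2⟫) 0 s := fun s =>
    (inn ok (jac.d2 z ξ s) (vder' ok z s)).congr_deriv (by
      rw [inner_zero_right, inner_neg_left, kself jac]; simp)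
  have h2 : ∀ s, ⟪m.J' z ξ s, (m.Z s z).2⟫ = 0 := fun s => by
    have := is_const_of_deriv_eq_zero (fun s => (h1 s).differentiableAt) (fun s => (h1 s).deriv)
      s 0
    simpa only [J'0 ok, ok.zero, h] using this
  have h3 : ∀ s, HasDerivAt (fun s => ⟪m.J z ξ s, (m.Z s z).2⟫) 0 s := fun s =>
    (inn ok (jac.d1 z ξ s) (vder' ok z s)).congr_deriv (by
      rw [inner_zero_right, h2]; simp)
  have := is_const_of_deriv_eq_zero (fun s => (h3 s).differentiableAt) (fun s => (h3 s).deriv) t 0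
  simpa only [J0 ok, ok.zero] using this

theorem cvx (ok : m.OK) (jac : m.Jac) (up : m.Up 0) (z η : W) (t : ℝ) (ht : 0 ≤ t)
    (h : ‖m.J z η t‖ < ‖m.hor z η‖) : ⟪m.ver z η, m.hor z η⟫ < 0 := by
  by_contra hc
  rw [not_lt] at hc
  have h1 := fun s => inn ok (jac.d2 z η s) (jac.d1 z η s)
  have m1 := monotone_of_hasDerivAt_nonneg h1 (fun s => by
    have := up (m.Z s z).1 (m.J z η s) (m.Z s z).2
    have h2 := real_inner_self_nonneg (x := m.J' z η s)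
    simp only [Pi.zero_apply, inner_neg_left]
    linarith)
  have h2 := fun s => inn ok (jac.d1 z η s) (jac.d1 z η s)
  have m2 : MonotoneOn (fun s => ⟪m.J z η s, m.J z η s⟫) (Ici 0) := by
    refine monotoneOn_of_deriv_nonneg (convex_Ici 0)
      (fun s _ => (h2 s).continuousAt.continuousWithinAt)
      (fun s _ => (h2 s).differentiableAt.differentiableWithinAt) fun s hs => ?_
    have h3 := m1 (mem_Ici.1 (interior_subset hs))
    simp only [J0 ok, J'0 ok] at h3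
    rw [(h2 s).deriv, real_inner_comm (m.J' z η s) (m.J z η s)]
    linarith
  have h4 := m2 self_mem_Ici ht ht
  simp only [J0 ok, real_inner_self_eq_norm_sq] at h4
  nlinarith [norm_nonneg (m.J z η t)]

theorem tan (ok : m.OK) (z ξ : W) : ⟪m.ver z ξ, z.2⟫ = ⟪ξ.2, z.2⟫ := by
  have h := ok.skew z.1 ξ.1 z.2 z.2
  rw [real_inner_comm (m.om z.1 ξ.1 z.2) z.2] at h
  have e : m.ver z ξ = ξ.2 + m.om z.1 ξ.1 z.2 := rfl
  rw [e, inner_add_left]
  linarith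

theorem omb (ok : m.OK) {b : ℝ} (hb : 0 < b) (R : ℝ) : ∃ C : ℝ, 0 ≤ C ∧ ∀ z ξ η : W, ‖z‖ ≤ R →
    |om m z ξ η| ≤ C * nn m b z ξ * ‖η‖ ∧ nn m b z ξ ≤ C * ‖ξ‖ := by
  obtain ⟨A, A0, hA⟩ := H38.bdd_ball ok.cS.continuous R
  obtain ⟨B, B0, hB⟩ := H38.bdd_ball ok.com.continuous R
  have R0 := abs_nonneg R
  have key : ∀ z η : W, ‖z‖ ≤ R → ‖m.hor z η‖ ≤ A * ‖η‖ ∧ ‖m.ver z η‖ ≤ (1 + B * |R|) * ‖η‖ := by
    intro z η hz
    have h1 : ‖z.1‖ ≤ R := (norm_fst_le z).trans hz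
    have h2 : ‖z.2‖ ≤ |R| := ((norm_snd_le z).trans hz).trans (le_abs_self R)
    refine ⟨(m.S z.1).le_of_opNorm_le_of_le (hA _ h1) (norm_fst_le η), ?_⟩
    have e : m.ver z η = η.2 + m.om z.1 η.1 z.2 := rfl
    have h3 : ‖m.om z.1 η.1 z.2‖ ≤ B * ‖η‖ * |R| := (m.om z.1 η.1).le_of_opNorm_le_of_le
      ((m.om z.1).le_of_opNorm_le_of_le (hB _ h1) (norm_fst_le η)) h2
    rw [e]
    have h4 := norm_add_le η.2 (m.om z.1 η.1 z.2)
    have h5 := norm_snd_le η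
    nlinarith
  obtain ⟨D, hD⟩ : ∃ D, D = 1 + B * |R| := ⟨_, rfl⟩
  rw [← hD] at key
  have D0 : 0 ≤ D := by rw [hD]; positivity
  refine ⟨b⁻¹ * D + A + (b * A + D), by positivity, fun z ξ η hz => ⟨?_, ?_⟩⟩
  · obtain ⟨k1, k2⟩ := key z η hz
    have n0 : 0 ≤ nn m b z ξ := sqrt_nonneg _
    have n1 : b * ‖m.hor z ξ‖ ≤ nn m b z ξ :=
      le_sqrt_of_sq_le (by nlinarith [sq_nonneg ‖m.ver z ξ‖])
    have n1' : ‖m.hor z ξ‖ ≤ b⁻¹ * nn m b z ξ := by
      rw [le_inv_mul_iff₀ hb]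
      exact n1
    have n2 : ‖m.ver z ξ‖ ≤ nn m b z ξ :=
      le_sqrt_of_sq_le (by nlinarith [mul_nonneg (sq_nonneg b) (sq_nonneg ‖m.hor z ξ‖)])
    have i1 := (abs_real_inner_le_norm (m.hor z ξ) (m.ver z η)).trans
      (mul_le_mul n1' k2 (norm_nonneg _) (by positivity))
    have i2 := (abs_real_inner_le_norm (m.ver z ξ) (m.hor z η)).trans
      (mul_le_mul n2 k1 (norm_nonneg _) n0)
    have i3 : 0 ≤ (b * A + D) * nn m b z ξ * ‖η‖ := by positivity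
    refine (abs_sub _ _).trans ?_
    nlinarith
  · obtain ⟨k1, k2⟩ := key z ξ hz
    have n1 : nn m b z ξ ≤ b * ‖m.hor z ξ‖ + ‖m.ver z ξ‖ :=
      sqrt_le_iff.2 ⟨by positivity, by
        nlinarith [mul_nonneg (mul_nonneg hb.le (norm_nonneg (m.hor z ξ)))
          (norm_nonneg (m.ver z ξ))]⟩
    have n2 := mul_le_mul_of_nonneg_left k1 hb.le
    have i3 : 0 ≤ (b⁻¹ * D + A) * ‖ξ‖ := by positivity
    nlinarith

theorem sh_le {y : ℝ} (hy : 0 ≤ y) : sinh y ≤ y * cosh y := by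
  have h : ∀ s, HasDerivAt (fun s => s * cosh s - sinh s) (s * sinh s) s := fun s =>
    (((hasDerivAt_id s).mul (hasDerivAt_cosh s)).sub (hasDerivAt_sinh s)).congr_deriv (by
      simp only [id]; ring)
  have := monotone_of_hasDerivAt_nonneg h (fun s => by
    rcases le_total 0 s with h | h
    · exact mul_nonneg h (sinh_nonneg_iff.2 h)
    · exact mul_nonneg_of_nonpos_of_nonpos h (sinh_nonpos_iff.2 h)) hy
  simpa using this

theorem thin {a A d e T : ℝ} (ha : 0 < a) (hd : 0 ≤ d) (he : 0 ≤ e) (hA : e ≤ A)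
    (h : cosh (a * d) ≤ 1 + exp (-(2 * a * T)) * (cosh (a * e) - 1)) :
    d ≤ cosh (a * A / 2) * exp (-(a * T)) * e := by
  have c : ∀ x : ℝ, cosh x = 1 + 2 * sinh (x / 2) ^ 2 := fun x => by
    have := cosh_two_mul (x / 2)
    rw [cosh_sq, show 2 * (x / 2) = x by ring] at this
    linarith
  have e2 : exp (-(2 * a * T)) = exp (-(a * T)) ^ 2 := by
    rw [sq, ← exp_add]
    ring_nf
  have p1 : 0 ≤ a * d / 2 := by positivity
  have p2 : 0 ≤ a * e / 2 := by positivity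
  have q := exp_pos (-(a * T))
  rw [c, c (a * e), e2] at h
  have h1 : sinh (a * d / 2) ≤ exp (-(a * T)) * sinh (a * e / 2) :=
    (le_abs_self _).trans (abs_le_of_sq_le_sq (by rw [mul_pow]; linarith)
      (mul_nonneg q.le (sinh_nonneg_iff.2 p2)))
  have h2 := self_le_sinh_iff.2 p1
  have h3 : cosh (a * e / 2) ≤ cosh (a * A / 2) := cosh_le_cosh.2 (by
    rw [abs_of_nonneg p2]
    refine le_trans ?_ (le_abs_self _)
    have := mul_le_mul_of_nonneg_left hA ha.le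
    linarith)
  have h4 := mul_le_mul_of_nonneg_left
    ((sh_le p2).trans (mul_le_mul_of_nonneg_left h3 p2)) q.le
  refine le_of_mul_le_mul_left ?_ ha
  nlinarith

end RJf

theorem jf : SJF := by
  intro m lg Γ _ _ O a b w
  have hb : 0 < b := w.a0.trans_le w.ab
  exact ⟨RJf.grow w.ok w.jac hb w.up w.dn, RJf.al w.ok w.jac, RJf.cvx w.ok w.jac w.up,
    RJf.tan w.ok, RJf.omb w.ok hb, fun A => ⟨cosh (a * A / 2), one_le_cosh _,
      fun y u u' hu hu' R T h0 hT hA => RJf.thin w.a0 (norm_nonneg _) (norm_nonneg _) hA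
        (w.th y u u' hu hu' R T h0 hT)⟩⟩

end Pool.Agent.MP_3ee8cb_gt.D3C0
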