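import Pool.Agent.MP_3ee8cb_gt.D3C0.Spec

/-! The left inverse step for strict derivatives. -/

namespace Pool.Agent.MP_3ee8cb_gt.D3C0

open Set Filter Topology Asymptotics Real D3
open CR (Met UT)
open scoped RealInnerProductSpace

namespace RLeft

theorem absorb {α : Type} {l : Filter α} {X Y : α → W} (L : W →L[ℝ] W)
    (h : (fun q => Y q - L (X q)) =o[l] fun q => ‖X q‖ + ‖Y q‖) :
    (fun q => Y q - L (X q)) =o[l] X := by
  refine h.trans_isBigO (IsBigO.of_bound (2 * ‖L‖ + 3) ?_)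
  filter_upwards [h.def (c := 1 / 2) (by norm_num)] with q hq
  rw [Real.norm_of_nonneg (by positivity)] at hq ⊢
  have h1 := norm_sub_norm_le (Y q) (L (X q))
  have h2 := L.le_opNorm (X q)
  have h3 := norm_nonneg (X q)
  linarith

theorem comp {P P' : Type} [TopologicalSpace P] [TopologicalSpace P'] {x : P' → W} {θ : P' → ℝ}
    {A : W →L[ℝ] ℝ} {F : P → P'} {p : P} {θ' : P → ℝ} (h : SD x θ A (F p)) (hF : Continuous F)
    (he : ∀ᶠ w in 𝓝 p, θ' w = θ (F w)) : SD (fun w => x (F w)) θ' A p := by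
  have h1 : Tendsto (fun q : P × P => (F q.1, F q.2)) (𝓝 (p, p)) (𝓝 (F p, F p)) :=
    ((hF.comp continuous_fst).prodMk (hF.comp continuous_snd)).tendsto (p, p)
  refine (IsLittleO.comp_tendsto h h1).congr' ?_ EventuallyEq.rfl
  filter_upwards [(continuous_fst.tendsto (p, p)).eventually he,
    (continuous_snd.tendsto (p, p)).eventually he] with q h2 h3
  simp only [Function.comp, h2, h3]

theorem unit {P : Type} [TopologicalSpace P] {y : P → W} (hy : Continuous y)
    (hn : ∀ p, ‖(y p).2‖ = 1) (p : P) :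
    SD y (fun _ => (0 : ℝ)) ((innerSL ℝ (y p).2).comp (.snd ℝ V V)) p := by
  refine IsLittleO.of_bound fun c hc => ?_
  have h1 : Continuous fun q : P × P => ‖(1 / 2 : ℝ) • ((y q.1).2 + (y q.2).2) - (y p).2‖ := by
    fun_prop
  have h0 : ‖(1 / 2 : ℝ) • ((y p).2 + (y p).2) - (y p).2‖ < c := by
    rw [← two_smul ℝ, smul_smul]
    simpa using hc
  filter_upwards [(h1.tendsto (p, p)).eventually (gt_mem_nhds h0)] with q hq
  have h2 : ⟪(y q.1).2 + (y q.2).2, (y q.1).2 - (y q.2).2⟫ = 0 := by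
    rw [inner_add_left, inner_sub_right, inner_sub_right, real_inner_self_eq_norm_sq,
      real_inner_self_eq_norm_sq, hn, hn, real_inner_comm]
    ring
  have h3 := abs_real_inner_le_norm ((1 / 2 : ℝ) • ((y q.1).2 + (y q.2).2) - (y p).2)
    ((y q.1).2 - (y q.2).2)
  rw [inner_sub_left, real_inner_smul_left, h2, mul_zero] at h3
  have h4 : ‖(y q.1).2 - (y q.2).2‖ ≤ ‖y q.1 - y q.2‖ := norm_snd_le (y q.1 - y q.2)
  refine le_trans (le_of_eq ?_) (h3.trans (mul_le_mul hq.le h4 (norm_nonneg _) hc.le))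
  simp

end RLeft

theorem left : SLEFT := by
  intro P ι _ x y p θ A B hA hB hk
  have hx : (fun q : P × P => x q.1 - x q.2) =O[𝓝 (p, p)]
      fun q => ‖x q.1 - x q.2‖ + ‖y q.1 - y q.2‖ := IsBigO.of_bound 1 (.of_forall fun q => by
    rw [one_mul, Real.norm_of_nonneg (by positivity)]
    exact le_add_of_nonneg_right (norm_nonneg _))
  have hy : (fun q : P × P => y q.1 - y q.2) =O[𝓝 (p, p)]
      fun q => ‖x q.1 - x q.2‖ + ‖y q.1 - y q.2‖ := IsBigO.of_bound 1 (.of_forall fun q => by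
    rw [one_mul, Real.norm_of_nonneg (by positivity)]
    exact le_add_of_nonneg_left (norm_nonneg _))
  have key : ∀ K : W →ₗ[ℝ] ℝ, ∃ M : W →L[ℝ] ℝ,
      (fun q : P × P => K (y q.1 - y q.2) - M (x q.1 - x q.2)) =o[𝓝 (p, p)]
        fun q => ‖x q.1 - x q.2‖ + ‖y q.1 - y q.2‖ := by
    intro K
    have hK : K ∈ Submodule.span ℝ (range fun i => (B i : W →ₗ[ℝ] ℝ)) := by
      refine FiniteDimensional.mem_span_of_iInf_ker_le_ker fun η hη => ?_
      rw [hk η fun i => by simpa using (Submodule.mem_iInf _).1 hη i]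
      exact Submodule.zero_mem _
    induction hK using Submodule.span_induction with
    | mem K hK =>
      obtain ⟨i, rfl⟩ := hK
      refine ⟨A i, (((hA i).trans_isBigO hx).sub ((hB i).trans_isBigO hy)).congr_left fun q => ?_⟩
      simp only [ContinuousLinearMap.coe_coe]
      ring
    | zero => exact ⟨0, by simp⟩
    | add K K' _ _ h h' =>
      obtain ⟨M, h⟩ := h
      obtain ⟨M', h'⟩ := h'
      refine ⟨M + M', (h.add h').congr_left fun q => ?_⟩
      simp only [LinearMap.add_apply, add_apply]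
      ring
    | smul r K _ h =>
      obtain ⟨M, h⟩ := h
      refine ⟨r • M, (h.const_mul_left r).congr_left fun q => ?_⟩
      simp only [LinearMap.smul_apply, smul_apply, smul_eq_mul]
      ring
  let b := Module.finBasis ℝ W
  choose M hM using fun j => key (b.coord j)
  refine ⟨∑ j, (M j).smulRight (b j), RLeft.absorb _ ?_⟩
  refine (IsLittleO.sum (s := Finset.univ) fun j _ =>
    ((ContinuousLinearMap.toSpanSingleton ℝ (b j)).isBigO_comp _ _).trans_isLittleO
      (hM j)).congr_left fun q => ?_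
  conv_rhs => rw [← b.sum_repr (y q.1 - y q.2)]
  simp [sub_smul, Finset.sum_sub_distrib]

theorem core : SCORE := by
  intro hL g h Φ Ψ m m' D D' F hc hn as iv eg eh sp p
  have ht : ∀ u, At h Ψ u (F p) → At g Φ (F.symm u) p := fun u hu =>
    (as.top _ _).2 (by rwa [F.apply_symm_apply])
  have hb : ∀ u, Ab h Ψ u (F p) → Ab g Φ (F.symm u) p := fun u hu =>
    (as.bot _ _).2 (by rwa [F.apply_symm_apply])
  refine hL (UT g) (Unit ⊕ ({u // At h Ψ u (F p)} × ℝ) ⊕ ({u // Ab h Ψ u (F p)} × ℝ)) (fz m)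
    (fun w => fz m' (F w)) p
    (Sum.elim (fun _ _ => 0) (Sum.elim (fun i w => Gr g Φ (F.symm i.1.1) w)
      fun i w => Gr g Φ w (F.symm i.1.1)))
    (Sum.elim (fun _ => 0) (Sum.elim (fun i => D (fz m p) (Φ i.2 (F.symm i.1.1)).1.1)
      fun i => (D (fl (fz m p)) (Φ i.2 (F.symm i.1.1)).1.1).comp fl))
    (Sum.elim (fun _ => (innerSL ℝ (fz m' (F p)).2).comp (.snd ℝ V V))
      (Sum.elim (fun i => D' (fz m' (F p)) (Ψ i.2 i.1.1).1.1)
        fun i => (D' (fl (fz m' (F p))) (Ψ i.2 i.1.1).1.1).comp fl)) ?_ ?_ fun η hη => ?_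
  · rintro (_ | ⟨⟨u, hu⟩, τ⟩ | ⟨⟨u, hu⟩, τ⟩)
    · simp [SD]
    · exact (eg _ p τ).1 (ht u hu)
    · exact (eg _ p τ).2 (hb u hu)
  · rintro (_ | ⟨⟨u, hu⟩, τ⟩ | ⟨⟨u, hu⟩, τ⟩)
    · exact RLeft.unit (hc.comp F.continuous) (fun w => hn (F w)) p
    · refine RLeft.comp ((eh u (F p) τ).1 hu) F.continuous ?_
      have := (iv _ p).1 (ht u hu)
      rwa [F.apply_symm_apply] at this
    · refine RLeft.comp ((eh u (F p) τ).2 hu) F.continuous ?_
      have := (iv _ p).2 (hb u hu)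
      rwa [F.apply_symm_apply] at this
  · refine sp (F p) η ?_ (fun u τ hu => hη (.inr (.inl (⟨u, hu⟩, τ))))
      fun u τ hu => hη (.inr (.inr (⟨u, hu⟩, τ)))
    rw [real_inner_comm]
    exact hη (.inl ())

end Pool.Agent.MP_3ee8cb_gt.D3C0
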