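import Pool.Agent.MP_3ee8cb_gt.D3C0.Spec
import Pool.Agent.MP_3ee8cb_gt.D3FL.HFLP
import Pool.Agent.MP_3ee8cb_gt.LV.RBP

/-! Local product structure near an asymptotic pair, and invariance of asymptotic pairs. -/

namespace Pool.Agent.MP_3ee8cb_gt.D3C0

open Set Filter Topology Real D3
open CR (E Met UT dd MinP uc_cpt)
open LV (QP ThP Lp1P lps_step lps_decay lps_foot)

namespace RNear

variable {n : ℕ} {h : Met n} {Γ : Type} [Group Γ] [MulAction Γ (E n)] {Ψ : ℝ → UT h → UT h}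

/-- The local product structure, uniformly. -/
theorem uni (Q : QP h Γ Ψ) {a : ℝ} (ha : 0 < a) (hm : MinP h Ψ) (hth : ThP h Ψ a)
    (hlp : Lp1P h Ψ) {η : ℝ} (hη : 0 < η) : ∃ δ : ℝ, 0 < δ ∧ ∀ w w' : UT h,
      dd h w.1.1 w'.1.1 ≤ δ → dd h (Ψ 1 w).1.1 (Ψ 1 w').1.1 ≤ δ → ∃ (u : UT h) (t₀ : ℝ),
        (∀ T, 0 ≤ T → dd h (Ψ (-T) u).1.1 (Ψ (-T) w).1.1 ≤ η) ∧ Ab h Ψ u w ∧
          At h Ψ (Ψ t₀ u) w' := by
  have db := Q.rp.db
  obtain ⟨δ, J, hδ, hJ⟩ := hlp η hη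
  refine ⟨δ, hδ, fun w w' n0 n1 => ?_⟩
  have ex : ∀ k : ℕ, ∃ x : ℝ × UT h, |x.1| ≤ η + δ ∧ dd h x.2.1.1 w.1.1 ≤ η ∧
      ∀ T : ℝ, 0 ≤ T → T ≤ k →
        cosh (a * dd h (Ψ (-T) x.2).1.1 (Ψ (-T) w).1.1) ≤
          1 + exp (-(2 * a * T)) * (cosh (a * η) - 1) ∧
        cosh (a * dd h (Ψ (T + x.1) x.2).1.1 (Ψ T w').1.1) ≤
          1 + exp (-(2 * a * T)) * (cosh (a * (2 * (η + δ))) - 1) := by
    intro k
    have hj0 : 0 ≤ max J (k : ℝ) := (Nat.cast_nonneg k).trans (le_max_right _ _)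
    obtain ⟨u, hu1, hu2⟩ := Q.rp.hr (Ψ (-max J (k : ℝ)) w).1.1 (Ψ (max J (k : ℝ)) w').1.1
    obtain ⟨l1, l2⟩ := hJ _ (le_max_left _ _) w w' u _ n0 n1 (db.nonneg _ _) hu1 hu2
    obtain ⟨s1, s2⟩ := lps_step Q ha hm hth hj0 rfl hu1 hu2 l1 l2 n0
    exact ⟨(_, Ψ _ u), s1, l2, fun T hT hTk => s2 T hT (hTk.trans (le_max_right _ _))⟩
  choose x hx1 hx2 hx3 using ex
  have hK : IsCompact (closure {y | dd h w.1.1 y ≤ η}) := (Q.rp.pro w.1.1 η).isCompact_closure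
  have hC := (isCompact_Icc (a := -(η + δ)) (b := η + δ)).prod (uc_cpt Q.rp.riem hK)
  obtain ⟨y, -, φ, hφ, hlim⟩ := hC.tendsto_subseq (x := x) fun k =>
    ⟨abs_le.mp (hx1 k), subset_closure (by
      show dd h w.1.1 (x k).2.1.1 ≤ η
      rw [db.symm]; exact hx2 k)⟩
  have big : ∀ T : ℝ, ∀ᶠ k : ℕ in atTop, T ≤ (φ k : ℝ) := fun T =>
    (tendsto_natCast_atTop_atTop.comp hφ.tendsto_atTop).eventually_ge_atTop T
  have l1 : ∀ T, 0 ≤ T → cosh (a * dd h (Ψ (-T) y.2).1.1 (Ψ (-T) w).1.1) ≤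
      1 + exp (-(2 * a * T)) * (cosh (a * η) - 1) := by
    intro T hT
    have c1 : Continuous fun z : ℝ × UT h => (Ψ (-T) z.2).1.1 :=
      (lps_foot Q.jc).comp (continuous_const.prodMk continuous_snd)
    have c2 : Continuous fun z : ℝ × UT h =>
        cosh (a * dd h (Ψ (-T) z.2).1.1 (Ψ (-T) w).1.1) :=
      continuous_cosh.comp (continuous_const.mul (db.cont.comp (c1.prodMk continuous_const)))
    refine le_of_tendsto ((c2.tendsto y).comp hlim) ?_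
    filter_upwards [big T] with k hk
    exact (hx3 (φ k) T hT hk).1
  have l2 : ∀ T, 0 ≤ T → cosh (a * dd h (Ψ (T + y.1) y.2).1.1 (Ψ T w').1.1) ≤
      1 + exp (-(2 * a * T)) * (cosh (a * (2 * (η + δ))) - 1) := by
    intro T hT
    have c1 : Continuous fun z : ℝ × UT h => (Ψ (T + z.1) z.2).1.1 :=
      (lps_foot Q.jc).comp ((continuous_const.add continuous_fst).prodMk continuous_snd)
    have c2 : Continuous fun z : ℝ × UT h =>
        cosh (a * dd h (Ψ (T + z.1) z.2).1.1 (Ψ T w').1.1) :=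
      continuous_cosh.comp (continuous_const.mul (db.cont.comp (c1.prodMk continuous_const)))
    refine le_of_tendsto ((c2.tendsto y).comp hlim) ?_
    filter_upwards [big T] with k hk
    exact (hx3 (φ k) T hT hk).2
  obtain ⟨d1, d2⟩ := lps_decay ha hη.le (fun T => db.nonneg _ _) l1
  obtain ⟨-, d4⟩ := lps_decay ha (by positivity) (fun T => db.nonneg _ _) l2
  refine ⟨y.2, y.1, d1, ?_, ?_⟩
  · refine (d2.comp tendsto_neg_atBot_atTop).congr fun t => ?_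
    simp only [Function.comp, neg_neg]
  · refine d4.congr fun t => ?_
    rw [Q.add]

theorem hTop (P : ℝ → Prop) (hP : ∀ᶠ t in atTop, P t) :
    ∀ᶠ t in atTop, ∀ τ ∈ Icc (0 : ℝ) 1, P (τ + t) := by
  obtain ⟨T, hT⟩ := eventually_atTop.1 hP
  exact eventually_atTop.2 ⟨T, fun t ht τ hτ => hT _ (by linarith [hτ.1])⟩

theorem hBot (P : ℝ → Prop) (hP : ∀ᶠ t in atBot, P t) :
    ∀ᶠ t in atBot, ∀ τ ∈ Icc (0 : ℝ) 1, P (τ + t) := by
  obtain ⟨T, hT⟩ := eventually_atBot.1 hP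
  exact eventually_atBot.2 ⟨T - 1, fun t ht τ hτ => hT _ (by linarith [hτ.2])⟩

end RNear

open RNear

theorem near : SNEAR := by
  intro n g Γ _ _ Φ Q a ha hm hth hlp u₀ w₀ H τ ε hε
  obtain ⟨δ, hδ, hu⟩ := uni Q ha hm hth hlp hε
  obtain ⟨T, hT⟩ := eventually_atTop.1 ((tendsto_order.1 H).2 δ hδ)
  have ev : ∀ s, T ≤ s → ∀ᶠ w in 𝓝 w₀, dd g (Φ s u₀).1.1 (Φ s w).1.1 < δ := fun s hs => by
    have c1 : Continuous fun w : UT g => dd g (Φ s u₀).1.1 (Φ s w).1.1 :=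
      Q.rp.db.cont.comp (continuous_const.prodMk
        ((lps_foot Q.jc).comp (continuous_const.prodMk continuous_id)))
    exact c1.continuousAt.eventually_lt_const (hT s hs)
  obtain ⟨s, s1, s2⟩ : ∃ s, T ≤ s ∧ τ ≤ s := ⟨max T τ, le_max_left _ _, le_max_right _ _⟩
  filter_upwards [ev s s1, ev (1 + s) (by linarith)] with w h0 h1
  rw [Q.add, Q.add] at h1
  obtain ⟨u, t₀, b0, b1, b2⟩ := hu (Φ s u₀) (Φ s w) h0.le h1.le
  have e : ∀ (t : ℝ) (p : UT g), Φ (t + -s) (Φ s p) = Φ t p := fun t p => by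
    rw [← Q.add, neg_add_cancel_right]
  refine ⟨Φ (-s) u, t₀, ?_, ?_, ?_⟩
  · refine (b1.comp (tendsto_atBot_add_const_right _ (-s) tendsto_id)).congr fun t => ?_
    change dd g (Φ (t + -s) u).1.1 (Φ (t + -s) (Φ s u₀)).1.1 = _
    rw [e, Q.add]
  · refine (b2.comp (tendsto_atTop_add_const_right _ (-s) tendsto_id)).congr fun t => ?_
    change dd g (Φ (t + -s) (Φ t₀ u)).1.1 (Φ (t + -s) (Φ s w)).1.1 = _
    rw [e, ← Q.add, ← Q.add, ← Q.add, show t + -s + t₀ = t + t₀ + -s by ring]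
  · have := b0 (s - τ) (by linarith)
    rwa [show -(s - τ) = τ + -s by ring, e, Q.add] at this

theorem pk : SPK := by
  intro hn g C Γ _ _ Φ q _ a ha hc
  have hi : LV.Hinge g Φ a := fun p p' e s t hs ht => by
    have := TB.hinge 3 g Γ Φ a q.rp ha hc p p' e s t hs ht
    rwa [mul_assoc] at this
  obtain ⟨mh, i2⟩ := LV.hm 3 g Γ Φ q a ha hi
  have th := LV.th 3 g Γ Φ q a ha mh i2
  exact ⟨mh, th, LV.bp 3 g Γ Φ q mh, hn 3 g Γ Φ q a ha mh th (LV.lp1 3 g Γ Φ q a ha mh i2),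
    LV.morse 3 g Γ Φ q a ha mh th⟩

theorem asp : SASP := by
  intro g h _ _ Γ Λ _ _ _ _ Φ Ψ ρ F qg qh _ _ _ _ cj a a' pg ph
  have sj := D3FL.HFLP.cj_symm qg.rp.deck cj
  have uF := LV.uq 3 g h Γ Λ Φ Ψ ρ F qg qh cj (LV.eqv 3 h Λ Ψ qh ph.min)
  have uG := LV.uq 3 h g Λ Γ Ψ Φ ρ.symm F.symm qh qg sj (LV.eqv 3 g Γ Φ qg pg.min)
  refine ⟨cj.flow, fun p q => ⟨fun H => ?_, ?_⟩, fun p q => ⟨fun H => ?_, ?_⟩⟩
  · exact LV.min2_lim qh.rp.db qg.add sj.flow uG atTop hTop (F p) (F q)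
      (by rw [F.symm_apply_apply, F.symm_apply_apply]; exact H)
  · exact LV.min2_lim qg.rp.db qh.add cj.flow uF atTop hTop p q
  · exact LV.min2_lim qh.rp.db qg.add sj.flow uG atBot hBot (F p) (F q)
      (by rw [F.symm_apply_apply, F.symm_apply_apply]; exact H)
  · exact LV.min2_lim qg.rp.db qh.add cj.flow uF atBot hBot p q

end Pool.Agent.MP_3ee8cb_gt.D3C0
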