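import Pool.Agent.MP_3ee8cb_gt.D3C0.Top
import Pool.Agent.MP_3ee8cb_gt.D3C0.RTel
import Pool.Agent.MP_3ee8cb_gt.D3C0.RMov
import Pool.Agent.MP_3ee8cb_gt.D3C0.RBs
import Pool.Agent.MP_3ee8cb_gt.D3C0.RJf
import Pool.Agent.MP_3ee8cb_gt.D3C0.RSeg
import Pool.Agent.MP_3ee8cb_gt.D3C0.RDer
import Pool.Agent.MP_3ee8cb_gt.D3C0.RBus
import Pool.Agent.MP_3ee8cb_gt.D3C0.RAsq
import Pool.Agent.MP_3ee8cb_gt.D3C0.RStab
import Pool.Agent.MP_3ee8cb_gt.D3C0.RInv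
import Pool.Agent.MP_3ee8cb_gt.D3C0.REnv
import Pool.Agent.MP_3ee8cb_gt.D3C0.RLeft
import Pool.Agent.MP_3ee8cb_gt.D3C0.RFin
import Pool.Agent.MP_3ee8cb_gt.D3C0.RNear
import Pool.Agent.MP_3ee8cb_gt.D3C0.RBr
import Pool.Agent.MP_3ee8cb_gt.D3JC.Out
import Pool.Agent.MP_3ee8cb_gt.D3FL.HHAD
import Pool.Agent.MP_3ee8cb_gt.D3AC.Act

/-! Under quarter pinching a conjugacy is of class `C¹`. -/

namespace Pool.Agent.MP_3ee8cb_gt.D3C0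

theorem partB (a : ℝ) (ha : 0 < a) : D3IN.PartB a :=
  partB_of ⟨sq2, bs, jf, step, mov, tel, tel2, seg, der, cau, bus', asq, flat, stab, imm⟩
    ⟨D3.sJAC, D3FL.had, D3.sACT, stay, left, str, near, inv, pk, frm3, br, ln, env, sep, asp, fin,
      core⟩ a ha

end Pool.Agent.MP_3ee8cb_gt.D3C0
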