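import Pool.Agent.MP_3ee8cb_gt.D3C0.H38Step

/-! Growth of Jacobi fields and the telescoped pairing. -/

namespace Pool.Agent.MP_3ee8cb_gt.D3C0.H38

open Set Filter Topology Metric D3
open scoped RealInnerProductSpace

noncomputable section

variable {Γ : Type} [Group Γ] [MulAction Γ V]
variable {m : MF} {lg : V × V → V} {O : Γ → V → V ≃ₗᵢ[ℝ] V}

theorem k_bound (ja : m.Jac) {b : ℝ} (hb : 0 < b) (up : m.Up 0) (dn : m.Dn (b ^ 2)) (y j k c : V)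
    (hc : ‖c‖ = 1) : -(2 * ⟪k, m.K y j c c⟫) ≤ b * (‖k‖ ^ 2 + b ^ 2 * ‖j‖ ^ 2) := by
  obtain ⟨L, hL⟩ := ja.lK y
  have sy : ⟪m.K y j c c, k⟫ = ⟪m.K y k c c, j⟫ := by
    rw [ja.pK y j c c k, ja.aK y c k j, inner_neg_left, ja.sK y k c j c, neg_neg,
      real_inner_comm]
  have q0 : ∀ a, 0 ≤ -⟪m.K y a c c, a⟫ := fun a => by simpa using up y a c
  have q1 : ∀ a, -⟪m.K y a c c, a⟫ ≤ b ^ 2 * ‖a‖ ^ 2 := fun a => by
    refine (dn y a c).trans (mul_le_mul_of_nonneg_left ?_ (sq_nonneg b))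
    rw [hc]
    nlinarith [sq_nonneg ⟪a, c⟫]
  have h := q0 (b • j - k)
  have h1 := q1 j
  have h2 := q1 k
  rw [hL] at h
  simp only [map_sub, map_smul, ContinuousLinearMap.sub_apply, ContinuousLinearMap.smul_apply,
    inner_sub_left, inner_sub_right, real_inner_smul_left, real_inner_smul_right] at h
  rw [← hL, ← hL, ← sy] at h
  rw [real_inner_comm]
  refine le_of_mul_le_mul_left ?_ hb
  nlinarith

theorem grow (ok : m.OK) (ja : m.Jac) {b : ℝ} (hb : 0 < b) (up : m.Up 0) (dn : m.Dn (b ^ 2)) :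
    ∃ C, 0 ≤ C ∧ ∀ (z ξ : V × V) (t : ℝ), ‖z.2‖ = 1 → 0 ≤ t →
      ‖m.J z ξ t‖ + ‖m.J' z ξ t‖ ≤ C * Real.exp (b * t) * (‖m.hor z ξ‖ + ‖m.ver z ξ‖) := by
  refine ⟨(1 + b) * (1 + b⁻¹), by positivity, fun z ξ t hz ht => ?_⟩
  set N : ℝ → ℝ := fun t => ‖m.J' z ξ t‖ ^ 2 + b ^ 2 * ‖m.J z ξ t‖ ^ 2 with hN
  have sk : ∀ t a, ⟪a, m.w z t a⟫ = 0 := fun t a => by
    have := ok.skew (m.Z t z).1 (m.R (m.Z t z).1 (m.Z t z).2) a a
    rw [real_inner_comm] at this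
    change ⟪a, m.om (m.Z t z).1 (m.R (m.Z t z).1 (m.Z t z).2) a⟫ = 0
    linarith
  have hd : ∀ t, HasDerivAt (fun t => Real.exp (-(2 * b) * t) * N t)
      (Real.exp (-(2 * b) * t) * (-(2 * b) * N t +
        (-(2 * ⟪m.J' z ξ t, m.K (m.Z t z).1 (m.J z ξ t) (m.Z t z).2 (m.Z t z).2⟫) +
          b ^ 2 * (2 * ⟪m.J z ξ t, m.J' z ξ t⟫)))) t := fun t => by
    have h1 := (ja.d2 z ξ t).norm_sq.add ((ja.d1 z ξ t).norm_sq.const_mul (b ^ 2))
    have h2 := ((hasDerivAt_id t).const_mul (-(2 * b))).exp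
    refine (h2.mul h1).congr_deriv ?_
    simp only [inner_sub_right, inner_neg_right, sk, id, hN, Pi.add_apply]
    ring
  have an : Antitone fun t => Real.exp (-(2 * b) * t) * N t := by
    refine antitone_of_hasDerivAt_nonpos hd fun t => ?_
    refine mul_nonpos_of_nonneg_of_nonpos (Real.exp_pos _).le ?_
    have h1 := k_bound ja hb up dn (m.Z t z).1 (m.J z ξ t) (m.J' z ξ t) (m.Z t z).2
      (by rw [ja.norm, hz])
    have h2 := real_inner_le_norm (m.J z ξ t) (m.J' z ξ t)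
    have h3 := mul_nonneg hb.le (sq_nonneg (‖m.J' z ξ t‖ - b * ‖m.J z ξ t‖))
    have h4 := mul_le_mul_of_nonneg_left h2 (sq_nonneg b)
    simp only [hN]
    nlinarith
  have h1 := an ht
  simp only [mul_zero, Real.exp_zero, one_mul] at h1
  have j0 : m.J z ξ 0 = m.hor z ξ := by rw [MF.J, z_zero ok, ok.zero]
  have j1 : m.J' z ξ 0 = m.ver z ξ := by rw [MF.J', z_zero ok, ok.zero]
  set A := (1 + b) * Real.exp (b * t) * (‖m.hor z ξ‖ + ‖m.ver z ξ‖) with hA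
  have A0 : 0 ≤ A := by positivity
  have h2 : N t ≤ A ^ 2 := by
    have e : Real.exp (b * t) ^ 2 * Real.exp (-(2 * b) * t) = 1 := by
      rw [sq, ← Real.exp_add, ← Real.exp_add]
      exact Real.exp_eq_one_iff _ |>.2 (by ring)
    have h3 : N 0 ≤ ((1 + b) * (‖m.hor z ξ‖ + ‖m.ver z ξ‖)) ^ 2 := by
      simp only [hN, j0, j1]
      have n1 := norm_nonneg (m.hor z ξ)
      have n2 := norm_nonneg (m.ver z ξ)
      have : ‖m.ver z ξ‖ + b * ‖m.hor z ξ‖ ≤ (1 + b) * (‖m.hor z ξ‖ + ‖m.ver z ξ‖) := by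
        nlinarith
      have h4 : (‖m.ver z ξ‖ + b * ‖m.hor z ξ‖) ^ 2 ≤
          ((1 + b) * (‖m.hor z ξ‖ + ‖m.ver z ξ‖)) ^ 2 := by gcongr
      have : 0 ≤ ‖m.ver z ξ‖ * (b * ‖m.hor z ξ‖) := by positivity
      nlinarith
    calc N t = Real.exp (b * t) ^ 2 * (Real.exp (-(2 * b) * t) * N t) := by
          rw [← mul_assoc, e, one_mul]
      _ ≤ Real.exp (b * t) ^ 2 * ((1 + b) * (‖m.hor z ξ‖ + ‖m.ver z ξ‖)) ^ 2 :=
          mul_le_mul_of_nonneg_left (h1.trans h3) (sq_nonneg _)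
      _ = _ := by rw [hA]; ring
  have h5 : ‖m.J' z ξ t‖ ≤ A := by
    refine (abs_le_of_sq_le_sq' ?_ A0).2
    have : 0 ≤ b ^ 2 * ‖m.J z ξ t‖ ^ 2 := by positivity
    simp only [hN] at h2
    linarith
  have h6 : b * ‖m.J z ξ t‖ ≤ A := by
    refine (abs_le_of_sq_le_sq' ?_ A0).2
    have := sq_nonneg ‖m.J' z ξ t‖
    simp only [hN] at h2
    nlinarith
  have h7 : ‖m.J z ξ t‖ ≤ b⁻¹ * A := by rwa [le_inv_mul_iff₀ hb]
  calc _ ≤ b⁻¹ * A + A := add_le_add h7 h5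
    _ = _ := by rw [hA]; ring

theorem j_coc (ok : m.OK) (z ξ : V × V) (s t : ℝ) :
    m.J (m.Z t z) (fderiv ℝ (m.Z t) z ξ) s = m.J z ξ (s + t) := by
  rw [MF.J, MF.J, z_coc ok, ok.add]

theorem j_coc' (ok : m.OK) (z ξ : V × V) (s t : ℝ) :
    m.J' (m.Z t z) (fderiv ℝ (m.Z t) z ξ) s = m.J' z ξ (s + t) := by
  rw [MF.J', MF.J', z_coc ok, ok.add]

theorem pr_end (ac : Act m Γ O) (γ : Γ) (p ζ q : V × V) (h : p.1 = q.1) :
    pr m O γ p ζ q = ⟪m.hor p ζ, q.2 - p.2⟫ := by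
  have e : act O γ q - act O γ p = (0, O γ p.1 (q.2 - p.2)) := by
    simp only [act, h, Prod.mk_sub_mk, sub_self, map_sub]
  rw [pr, e, om0, act_hor ac, act_ver ac]
  simp [MF.hor, MF.ver, -map_sub]

/-- The telescoped estimate. -/
theorem tel (ok : m.OK) (ja : m.Jac) (ha : m.Had lg) (ac : Act m Γ O)
    (h2 : ContDiff ℝ 2 m.om) (a2 : ∀ γ, ContDiff ℝ 2 (act O γ))
    (di : ProperlyDiscontinuousSMul Γ V) {a b : ℝ} (a0 : 0 ≤ a) (hb : 0 < b) (ab : b < 2 * a)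
    (up : m.Up 0) (dn : m.Dn (b ^ 2)) (R : ℝ) : ∃ C, 0 ≤ C ∧ ∀ (N : ℕ) (p q ζ : V × V) (γ : Γ)
    (A : ℝ), ‖p.2‖ = 1 → ‖γ • p.1‖ ≤ R → A ≤ R → (m.Z N p).1 = (m.Z N q).1 →
    (∀ k : ℕ, k ≤ N → ‖lg ((m.Z k p).1, (m.Z k q).1)‖ ≤ A * Real.exp (-(a * k))) →
    |⟪m.J p ζ N, (m.Z N q).2 - (m.Z N p).2⟫ - pr m O γ p ζ q| ≤
      C * A ^ 2 * (‖m.hor p ζ‖ + ‖m.ver p ζ‖) := by
  obtain ⟨K, hK, hK'⟩ := ac.cpt
  obtain ⟨R₀, hR₀⟩ := hK.isBounded.exists_norm_le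
  choose c hc using hK'
  obtain ⟨C, C0, hC⟩ := step ok ja ha ac h2 a2 di (max R R₀)
  obtain ⟨G, G0, hG⟩ := grow ok ja hb up dn
  set θ := Real.exp (b - 2 * a) with hθ
  have θ0 : 0 < θ := Real.exp_pos _
  have θ1 : θ < 1 := Real.exp_lt_one_iff.2 (by linarith)
  refine ⟨C * G * Real.exp b * (1 - θ)⁻¹, by have := sub_pos.2 θ1; positivity,
    fun N p q ζ γ A hp hγ hA hN hd => ?_⟩
  have A0 : 0 ≤ A := by
    have := (norm_nonneg _).trans (hd 0 (Nat.zero_le _))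
    simpa using this
  set n := ‖m.hor p ζ‖ + ‖m.ver p ζ‖ with hn
  have n0 : 0 ≤ n := by positivity
  let g : ℕ → Γ := fun k => if k = 0 then γ else c (m.Z k p).1
  have hg : ∀ k : ℕ, ‖g k • (m.Z k p).1‖ ≤ max R R₀ := fun k => by
    by_cases h : k = 0
    · subst h
      simp only [g, if_true, Nat.cast_zero, ok.zero]
      exact le_max_of_le_left hγ
    · simp only [g, if_neg h]
      exact le_max_of_le_right (hR₀ _ (hc _))
  let u : ℕ → ℝ := fun k => pr m O (g k) (m.Z k p) (fderiv ℝ (m.Z k) p ζ) (m.Z k q)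
  have hu : ∀ k, k < N → |u (k + 1) - u k| ≤ C * G * Real.exp b * A ^ 2 * n * θ ^ k := by
    intro k hk
    have e1 : ∀ z, m.Z 1 (m.Z k z) = m.Z (k + 1 : ℕ) z := fun z => by
      rw [← ok.add, Nat.cast_add_one, add_comm]
    have ex : Real.exp (-(a * k)) ≤ 1 := Real.exp_le_one_iff.2 (by
      have : 0 ≤ a * k := by positivity
      linarith)
    have := hC (m.Z k p) (m.Z k q) (fderiv ℝ (m.Z k) p ζ) (g k) (g (k + 1))
      (A * Real.exp (-(a * k))) (by rw [ja.norm, hp]) (hg k) (by rw [e1]; exact hg _)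
      (le_max_of_le_left ((mul_le_of_le_one_right A0 ex).trans hA)) (hd k hk.le) (by
        rw [e1, e1]
        refine (hd (k + 1) hk).trans (mul_le_mul_of_nonneg_left (Real.exp_le_exp.2 ?_) A0)
        push_cast
        linarith)
    rw [e1, e1, ← z_coc ok, j_coc ok, j_coc' ok] at this
    have e2 : (1 : ℝ) + k = (k + 1 : ℕ) := by rw [Nat.cast_add_one, add_comm]
    have gr := hG p ζ (1 + k) hp (by positivity)
    have h3 := this.trans (mul_le_mul_of_nonneg_left gr (by positivity))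
    rw [e2] at h3
    refine h3.trans (le_of_eq ?_)
    have e3 : Real.exp (-(a * k)) ^ 2 * Real.exp (b * (k + 1 : ℕ)) = Real.exp b * θ ^ k := by
      rw [hθ, ← Real.exp_nat_mul, ← Real.exp_nat_mul, ← Real.exp_add, ← Real.exp_add]
      congr 1
      push_cast
      ring
    calc _ = C * G * A ^ 2 * n * (Real.exp (-(a * k)) ^ 2 * Real.exp (b * (k + 1 : ℕ))) := by
          ring
      _ = _ := by rw [e3]; ring
  have s1 : u N - u 0 = ∑ k ∈ Finset.range N, (u (k + 1) - u k) := (Finset.sum_range_sub u N).symm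
  have s2 : ∑ k ∈ Finset.range N, θ ^ k ≤ (1 - θ)⁻¹ := by
    rw [← tsum_geometric_of_lt_one θ0.le θ1]
    exact (summable_geometric_of_lt_one θ0.le θ1).sum_le_tsum _ fun i _ => by positivity
  have u0 : u 0 = pr m O γ p ζ q := by
    simp only [u, g, if_true, Nat.cast_zero, ok.zero, z_zero ok]
  have uN : u N = ⟪m.J p ζ N, (m.Z N q).2 - (m.Z N p).2⟫ := pr_end ac _ _ _ _ hN
  rw [← u0, ← uN, s1]
  refine (Finset.abs_sum_le_sum_abs _ _).trans ((Finset.sum_le_sum fun k hk =>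
    hu k (Finset.mem_range.1 hk)).trans ?_)
  rw [← Finset.mul_sum]
  calc _ ≤ C * G * Real.exp b * A ^ 2 * n * (1 - θ)⁻¹ :=
        mul_le_mul_of_nonneg_left s2 (by positivity)
    _ = _ := by ring

end

end Pool.Agent.MP_3ee8cb_gt.D3C0.H38
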