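import Mathlib

/-! Strict derivatives: continuity, left inverses, envelopes. -/

namespace Pool.Agent.MP_3ee8cb_gt.D3C0.H77

open Set Filter Topology Asymptotics

variable {W W' W'' : Type} [NormedAddCommGroup W] [NormedSpace ℝ W] [NormedAddCommGroup W']
  [NormedSpace ℝ W'] [NormedAddCommGroup W''] [NormedSpace ℝ W'']

/-- The `ε` form of a strict derivative. -/
theorem strict_iff {f : W → W'} {L : W →L[ℝ] W'} {x : W} : HasStrictFDerivAt f L x ↔
    ∀ ε : ℝ, 0 < ε → ∀ᶠ q : W × W in 𝓝 (x, x),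
      ‖f q.1 - f q.2 - L (q.1 - q.2)‖ ≤ ε * ‖q.1 - q.2‖ := by
  rw [hasStrictFDerivAt_iff_isLittleO, isLittleO_iff]

/-- Strict derivatives at all points of an open set depend continuously on the point. -/
theorem strict_c1 {f : W → W'} {U : Set W} (hU : IsOpen U)
    (H : ∀ x ∈ U, ∃ L : W →L[ℝ] W', HasStrictFDerivAt f L x) : ContDiffOn ℝ 1 f U := by
  have hd : ∀ x ∈ U, HasStrictFDerivAt f (fderiv ℝ f x) x := fun x hx => by
    obtain ⟨L, hL⟩ := H x hx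
    rwa [hL.hasFDerivAt.fderiv]
  rw [show (1 : WithTop ℕ∞) = 0 + 1 from (zero_add _).symm,
    contDiffOn_succ_iff_fderiv_of_isOpen hU]
  refine ⟨fun x hx => (hd x hx).hasFDerivAt.differentiableAt.differentiableWithinAt,
    fun h => absurd h (by simp), contDiffOn_zero.2 fun x hx => ContinuousAt.continuousWithinAt ?_⟩
  rw [ContinuousAt, Metric.tendsto_nhds]
  intro ε hε
  have h1 := strict_iff.1 (hd x hx) (ε / 2) (by positivity)
  obtain ⟨s, hs, h2⟩ : ∃ s ∈ 𝓝 x, ∀ a ∈ s, ∀ b ∈ s,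
      ‖f a - f b - fderiv ℝ f x (a - b)‖ ≤ ε / 2 * ‖a - b‖ := by
    rw [nhds_prod_eq] at h1
    obtain ⟨s, hs, t, ht, h3⟩ := mem_prod_iff.1 h1
    exact ⟨s ∩ t, inter_mem hs ht, fun a ha b hb => h3 (mk_mem_prod ha.1 hb.2)⟩
  filter_upwards [hU.mem_nhds hx, eventually_mem_nhds_iff.2 hs] with y hy hy'
  have h4 : HasFDerivAt (fun a => f a - fderiv ℝ f x a) (fderiv ℝ f y - fderiv ℝ f x) y :=
    (hd y hy).hasFDerivAt.sub (fderiv ℝ f x).hasFDerivAt
  have h5 := h4.le_of_lip' (C := ε / 2) (by positivity) (by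
    filter_upwards [hy'] with a ha
    have := h2 a ha y (mem_of_mem_nhds hy')
    rwa [map_sub, show f a - f y - (fderiv ℝ f x a - fderiv ℝ f x y) =
      f a - fderiv ℝ f x a - (f y - fderiv ℝ f x y) by abel] at this)
  rw [dist_eq_norm]
  linarith

/-- A continuous solution `F` of `G (F p) = H p` is strictly differentiable. -/
theorem strict_left [FiniteDimensional ℝ W'] [FiniteDimensional ℝ W''] {F : W → W'}
    {G : W' → W''} {H : W → W''} {A : W' →L[ℝ] W''} {B : W →L[ℝ] W''} {p : W}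
    (hF : ContinuousAt F p) (hG : HasStrictFDerivAt G A (F p)) (hH : HasStrictFDerivAt H B p)
    (e : ∀ᶠ q in 𝓝 p, G (F q) = H q) (hA : ∀ v, A v = 0 → v = 0) :
    ∃ L : W →L[ℝ] W', HasStrictFDerivAt F L p := by
  obtain ⟨P, hP⟩ := (A : W' →ₗ[ℝ] W'').exists_leftInverse_of_injective
    (LinearMap.ker_eq_bot'.2 hA)
  exact ⟨_, HasStrictFDerivAt.of_comp_of_leftInverse (f'symm := LinearMap.toContinuousLinearMap P)
    hF hG hH e fun v => DFunLike.congr_fun hP v⟩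

/-- Finitely many strictly differentiable functions with independent derivatives. -/
theorem strict_fam [FiniteDimensional ℝ W'] {ι : Type} {F : W → W'} {G : ι → W' → ℝ}
    {H : ι → W → ℝ} {A : ι → W' →L[ℝ] ℝ} {B : ι → W →L[ℝ] ℝ} {p : W} (hF : ContinuousAt F p)
    (hG : ∀ i, HasStrictFDerivAt (G i) (A i) (F p)) (hH : ∀ i, HasStrictFDerivAt (H i) (B i) p)
    (e : ∀ i, ∀ᶠ q in 𝓝 p, G i (F q) = H i q) (hA : ∀ v, (∀ i, A i v = 0) → v = 0) :
    ∃ L : W →L[ℝ] W', HasStrictFDerivAt F L p := by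
  classical
  obtain ⟨s, hs⟩ : ∃ s : Finset ι, ∀ v, (∀ i ∈ s, A i v = 0) → v = 0 := by
    let K : Finset ι → Submodule ℝ W' := fun s => ⨅ i ∈ s, LinearMap.ker (A i : W' →ₗ[ℝ] ℝ)
    have hK : ∀ s v, v ∈ K s ↔ ∀ i ∈ s, A i v = 0 := fun s v => by simp [K]
    obtain ⟨s, hs⟩ := (wellFounded_lt (α := Submodule ℝ W')).has_min (range K) (range_nonempty K)
    obtain ⟨⟨s, rfl⟩, hm⟩ := hs
    refine ⟨s, fun v hv => hA v fun i => ?_⟩
    by_contra hi
    refine hm (K (insert i s)) ⟨_, rfl⟩ (lt_of_le_of_ne (fun w hw => ?_) fun h => hi ?_)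
    · exact (hK _ _).2 fun j hj => (hK _ _).1 hw j (Finset.mem_insert_of_mem hj)
    · have h1 : v ∈ K (insert i s) := h ▸ (hK _ _).2 hv
      exact (hK _ _).1 h1 i (Finset.mem_insert_self _ _)
  refine strict_left (W'' := s → ℝ) (G := fun w i => G i w) (H := fun q i => H i q)
    (A := ContinuousLinearMap.pi fun i : s => A i) (B := ContinuousLinearMap.pi fun i : s => B i)
    hF (hasStrictFDerivAt_pi.2 fun i => hG i) (hasStrictFDerivAt_pi.2 fun i => hH i) ?_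
    fun v hv => hs v fun i hi => congrFun hv ⟨i, hi⟩
  filter_upwards [eventually_all.2 fun i : s => e i] with q hq
  exact funext hq

/-- The envelope of a family is strictly differentiable. -/
theorem envelope {Y : Type} [TopologicalSpace Y] {b : W → Y → ℝ} {G : W → ℝ} {L : W →L[ℝ] ℝ}
    {w₀ : W} {y₀ : Y} (low : ∀ᶠ w in 𝓝 w₀, ∀ y, G w ≤ b w y)
    (att : ∀ N ∈ 𝓝 y₀, ∀ᶠ w in 𝓝 w₀, ∃ y ∈ N, b w y = G w)
    (der : ∀ ε : ℝ, 0 < ε → ∃ N ∈ 𝓝 y₀, ∀ᶠ q : W × W in 𝓝 (w₀, w₀), ∀ y ∈ N,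
      |b q.1 y - b q.2 y - L (q.1 - q.2)| ≤ ε * ‖q.1 - q.2‖) : HasStrictFDerivAt G L w₀ := by
  refine strict_iff.2 fun ε hε => ?_
  obtain ⟨N, hN, h1⟩ := der ε hε
  have t1 : Tendsto (Prod.fst : W × W → W) (𝓝 (w₀, w₀)) (𝓝 w₀) := continuous_fst.tendsto _
  have t2 : Tendsto (Prod.snd : W × W → W) (𝓝 (w₀, w₀)) (𝓝 w₀) := continuous_snd.tendsto _
  filter_upwards [h1, t1.eventually low, t2.eventually low, t1.eventually (att N hN),
    t2.eventually (att N hN)] with q hq l1 l2 ⟨y, hy, e1⟩ ⟨z, hz, e2⟩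
  have a1 := abs_le.1 (hq y hy)
  have a2 := abs_le.1 (hq z hz)
  have a3 := l1 z
  have a4 := l2 y
  rw [Real.norm_eq_abs, abs_le]
  constructor <;> linarith [a1.1, a1.2, a2.1, a2.2]

/-- A continuous partial derivative gives the hypothesis of `envelope`. -/
theorem partial_strict {Y : Type} [TopologicalSpace Y] {b : W → Y → ℝ} {D : W → Y → W →L[ℝ] ℝ}
    {w₀ : W} {y₀ : Y}
    (hd : ∀ᶠ q : W × Y in 𝓝 (w₀, y₀), HasFDerivAt (fun w => b w q.2) (D q.1 q.2) q.1)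
    (hc : Tendsto (fun q : W × Y => D q.1 q.2) (𝓝 (w₀, y₀)) (𝓝 (D w₀ y₀))) (ε : ℝ)
    (hε : 0 < ε) :
    ∃ N ∈ 𝓝 y₀, ∀ᶠ q : W × W in 𝓝 (w₀, w₀), ∀ y ∈ N,
      |b q.1 y - b q.2 y - D w₀ y₀ (q.1 - q.2)| ≤ ε * ‖q.1 - q.2‖ := by
  have h1 := hd.and (Metric.tendsto_nhds.1 hc ε hε)
  rw [nhds_prod_eq] at h1
  obtain ⟨s, hs, N, hN, h2⟩ := mem_prod_iff.1 h1
  obtain ⟨r, hr, hrs⟩ := Metric.mem_nhds_iff.1 hs
  refine ⟨N, hN, ?_⟩
  have hb := Metric.ball_mem_nhds w₀ hr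
  filter_upwards [prod_mem_nhds hb hb] with q hq y hy
  have := (convex_ball w₀ r).norm_image_sub_le_of_norm_hasFDerivWithin_le'
    (f := fun w => b w y) (f' := fun w => D w y) (φ := D w₀ y₀) (C := ε)
    (fun w hw => (h2 (mk_mem_prod (hrs hw) hy)).1.hasFDerivWithinAt)
    (fun w hw => by
      have := (h2 (mk_mem_prod (hrs hw) hy)).2
      rw [dist_eq_norm] at this
      exact this.le) hq.2 hq.1
  rwa [Real.norm_eq_abs] at this

end Pool.Agent.MP_3ee8cb_gt.D3C0.H77
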