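import Pool.Agent.MP_3ee8cb_gt.D3C0.Spec

/-! Invariance of the time offset, and separation of tangent vectors. -/

namespace Pool.Agent.MP_3ee8cb_gt.D3C0

open Set Filter Topology Asymptotics Real D3
open CR (Met UT Riem RP dd ng tm MinP bus FlP)
open LV (QP CJ BP TP ThP Lp1P OnMan)
open scoped RealInnerProductSpace ContDiff

noncomputable section

namespace RInv

variable {n : ℕ} {g : Met n} {Φ : ℝ → UT g → UT g}

theorem ng_ng (p : UT g) : ng (ng p) = p := Subtype.ext (Prod.ext rfl (neg_neg p.1.2))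

theorem ng_cont : Continuous (ng : UT g → UT g) :=
  Continuous.subtype_mk ((continuous_fst.comp continuous_subtype_val).prodMk
    (continuous_snd.comp continuous_subtype_val).neg) _

theorem ng_foot (fl : FlP g Φ) (t : ℝ) (p : UT g) : (Φ t (ng p)).1.1 = (Φ (-t) p).1.1 := by
  rw [fl.rev]; rfl

theorem at_ab (fl : FlP g Φ) {p q : UT g} (h : At g Φ p q) : Ab g Φ (ng p) (ng q) := by
  have h1 := h.comp tendsto_neg_atBot_atTop
  refine h1.congr fun t => ?_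
  simp only [Function.comp, ng_foot fl]

theorem ab_at (fl : FlP g Φ) {p q : UT g} (h : Ab g Φ p q) : At g Φ (ng p) (ng q) := by
  have h1 := h.comp tendsto_neg_atTop_atBot
  refine h1.congr fun t => ?_
  simp only [Function.comp, ng_foot fl]

theorem grv (bp : BP g Φ) : Grv g Φ := by
  intro u u₀ w t₀ hb ht
  have e : ∀ y, bus g Φ w y + bus g Φ (ng u₀) y = bus g Φ u y + bus g Φ (ng u) y + t₀ := by
    intro y
    rw [← bp.top _ _ ht y, ← bp.bot _ _ hb y, bp.shift]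
    ring
  have h1 : ∀ y, t₀ ≤ bus g Φ w y + bus g Φ (ng u₀) y := fun y => by
    have := bp.opp u y
    rw [e]
    linarith
  have h2 : ∀ t, bus g Φ w (Φ t u).1.1 + bus g Φ (ng u₀) (Φ t u).1.1 = t₀ := fun t => by
    rw [e, bp.self, bp.back]
    ring
  refine ⟨le_antisymm ?_ (le_ciInf h1), h1, h2⟩
  exact (ciInf_le ⟨t₀, by rintro _ ⟨y, rfl⟩; exact h1 y⟩ (Φ 0 u).1.1).trans (h2 0).le

theorem tr {h : Met n} {Ψ : ℝ → UT h → UT h} {F : UT g ≃ₜ UT h} (as : Asp g h Φ Ψ F)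
    (G : Grv g Φ) (H : Grv h Ψ) {u u₀ w : UT g} {t₀ : ℝ} (hb : Ab g Φ u u₀)
    (ht : At g Φ (Φ t₀ u) w) : Gr g Φ u₀ w = Gr h Ψ (F u₀) (F w) := by
  have h1 := (as.top _ _).1 ht
  rw [as.flow] at h1
  rw [(G u u₀ w t₀ hb ht).1, (H _ _ _ t₀ ((as.bot _ _).1 hb) h1).1]

/-- Every nearby point lies on an asymptote. -/
theorem thru {g : Met 3} {Φ : ℝ → UT g → UT g} {m : MF} {lg : W → V} {a b : ℝ} {β : W → V → ℝ}
    {D : W → V → W →L[ℝ] ℝ} (db : CR.DBP g) (ha : 0 < a) (ln : Ln g Φ m lg β)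
    (asq : Asq m lg a b β D) (w : UT g) (y : V) (hy : ‖lg ((fz m w).1, y)‖ ≤ 1) :
    ∃ (p : UT g) (τ : ℝ), At g Φ p w ∧ (Φ τ p).1.1 = y := by
  obtain ⟨C, -, hC⟩ := asq (fz m w) (ln.unit w)
  obtain ⟨u, hu, e, hd, -⟩ := hC y hy
  obtain ⟨p, rfl⟩ := ln.onto u hu
  refine ⟨p, -β (fz m w) y, ?_, ?_⟩
  · have h0 : Tendsto (fun t : ℝ => C * ‖lg ((fz m w).1, y)‖ * exp (-(a * t))) atTop (𝓝 0) := by
      have h1 : Tendsto (fun t : ℝ => exp (-(a * t))) atTop (𝓝 0) :=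
        tendsto_exp_neg_atTop_nhds_zero.comp (tendsto_id.const_mul_atTop ha)
      simpa using h1.const_mul (C * ‖lg ((fz m w).1, y)‖)
    refine squeeze_zero' (Eventually.of_forall fun t => db.nonneg _ _) ?_ h0
    filter_upwards [eventually_ge_atTop (0 : ℝ)] with t ht
    have h2 := hd t ht
    rw [df, ln.flow, ln.flow, ln.dist] at h2
    rw [db.symm]
    exact h2
  · rw [ln.flow] at e
    exact e

end RInv

open RInv

theorem inv : SINV := by
  refine ⟨fun n g Φ bp => grv bp, ?_⟩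
  intro n g h Γ Λ _ _ _ _ Φ Ψ ρ F qg _ _ as nr G H u₀ w₀
  constructor
  · intro ht
    filter_upwards [nr u₀ w₀ ht 0 1 one_pos] with w ⟨u, t₀, h1, h2, _⟩
    exact tr as G H h1 h2
  · intro hb
    have fl := qg.rp.fl
    have h0 := (ng_cont (g := g)).continuousAt.eventually
      (nr (ng u₀) (ng w₀) (ab_at fl hb) 0 1 one_pos)
    filter_upwards [h0] with w ⟨u, t₀, h1, h2, _⟩
    have h3 := at_ab fl h2
    have h4 := ab_at fl h1
    rw [ng_ng] at h3 h4
    refine tr as G H (t₀ := t₀) h3 ?_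
    refine h4.congr fun t => ?_
    rw [← qg.add, ng_foot fl, ng_foot fl, ← qg.add, show -(t + t₀) + t₀ = -t by ring]

theorem sep : SSEP := by
  intro g C Γ _ _ Φ qg _ m lg a b β D ha ln asq imm w₀ ξ hξ h1 h2
  refine imm (fz m w₀) ξ (ln.unit w₀) hξ (fun y hy => ?_) (fun y hy => ?_)
  · obtain ⟨p, τ, hp, rfl⟩ := thru qg.rp.db ha ln asq w₀ y hy
    exact h1 p τ hp
  · rw [← ln.neg] at hy
    obtain ⟨p, τ, hp, rfl⟩ := thru qg.rp.db ha ln asq (ng w₀) y hy
    have h3 := at_ab qg.rp.fl hp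
    rw [ng_ng] at h3
    have h4 := h2 (ng p) (-τ) h3
    rw [ng_foot qg.rp.fl, neg_neg] at h4
    exact h4

end

end Pool.Agent.MP_3ee8cb_gt.D3C0
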